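import Pool.Agent.R790.Mm.ConcTail

/-! The quotient of the space of nontrivial mm-spaces by scaling is contractible, for the box
topology and for the concentration topology. -/

set_option autoImplicit false

namespace Pool.Agent.Results.MP_3020f5_gt.SigmaContractible

open Pool.Agent.R790.Mm

/-- The topology on `Σ = X_* / ℝ₊` (`Sig`): the quotient topology of the subspace topology on
`X_*` (`Xs`) of the topology of the given (pseudo)metric on the set `XX` of mm-isomorphism
classes. -/
abbrev sigTop (m : PseudoMetricSpace XX) : TopologicalSpace Sig :=
  @instTopologicalSpaceQuotient Xs scaleSetoid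
    (@instTopologicalSpaceSubtype XX (fun x => x ≠ ptX) m.toUniformSpace.toTopologicalSpace)

/-- `Σ` is contractible for the quotient of the box topology (Q1) and for the quotient of the
concentration topology (Q2). -/
theorem result :
    @ContractibleSpace Sig (sigTop boxPM) ∧ @ContractibleSpace Sig (sigTop concPM) :=
  ⟨@sig_contractible boxPM TTX box_mixCont box_tfam,
    @sig_contractible concPM TCX conc_mixCont conc_tfam⟩

end Pool.Agent.Results.MP_3020f5_gt.SigmaContractible
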